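import Mathlib

set_option autoImplicit false

namespace Pool.Agent.Results.MP_700e60_co.Counter

open MvPolynomial

def T : Set (Polynomial ℕ) := {f | f ≠ 0 ∧ f.coeff 0 = 0}

noncomputable def pat : Fin 2 → MvPolynomial (Fin 2) ℕ := ![X 0 ^ 2, X 0 + X 0 * X 1]

theorem result :
    ∃ (m k : ℕ) (F : Fin k → MvPolynomial (Fin m) ℕ),
      (∀ i, F i ≠ 0 ∧ constantCoeff (F i) = 0) ∧
      (∀ (r : ℕ) (c : ℕ → Fin r) (N : ℕ), ∃ a : Fin m → ℕ, (∀ j, N < a j) ∧
        (∀ i i', eval a (F i) = eval a (F i') → i = i') ∧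
        ∀ i i', c (eval a (F i)) = c (eval a (F i'))) ∧
      ¬ (∀ (r : ℕ) (c : Polynomial ℕ → Fin r), ∃ a : Fin m → Polynomial ℕ, (∀ j, a j ∈ T) ∧
        ∀ i i', c (aeval a (F i)) = c (aeval a (F i'))) := by
  refine ⟨2, 2, pat, ?_, ?_, ?_⟩
  · intro i
    constructor
    · intro h
      have := congrArg (eval (fun _ : Fin 2 => (1 : ℕ))) h
      fin_cases i <;> simp [pat] at this
    · fin_cases i <;> simp [pat]
  · intro r c N
    obtain ⟨i, j, hij, hc⟩ : ∃ i j : ℕ, i < j ∧
        c ((N + 2) ^ (2 * i + 2)) = c ((N + 2) ^ (2 * j + 2)) := by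
      obtain ⟨i, j, hne, hc⟩ := Finite.exists_ne_map_eq_of_infinite
        (fun i : ℕ => c ((N + 2) ^ (2 * i + 2)))
      rcases lt_or_gt_of_ne hne with h | h
      · exact ⟨i, j, h, hc⟩
      · exact ⟨j, i, h, hc.symm⟩
    have hB : ∀ e : ℕ, 0 < e → N + 2 ≤ (N + 2) ^ e := fun e he =>
      Nat.le_self_pow (by omega) _
    have e0 : eval ![(N + 2) ^ (i + 1), (N + 2) ^ (2 * j + 1 - i) - 1] (pat 0)
        = (N + 2) ^ (2 * i + 2) := by
      simp only [pat, Matrix.cons_val_zero, map_pow, eval_X]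
      ring
    have e1 : eval ![(N + 2) ^ (i + 1), (N + 2) ^ (2 * j + 1 - i) - 1] (pat 1)
        = (N + 2) ^ (2 * j + 2) := by
      simp only [pat, Matrix.cons_val_zero, Matrix.cons_val_one, map_add, map_mul, eval_X]
      have h1 := hB (2 * j + 1 - i) (by omega)
      have h2 : (N + 2) ^ (2 * j + 2) = (N + 2) ^ (i + 1) * (N + 2) ^ (2 * j + 1 - i) := by
        rw [← pow_add]; congr 1; omega
      rw [h2]
      obtain ⟨z, hz⟩ : ∃ z, (N + 2) ^ (2 * j + 1 - i) = z + 1 := ⟨_, (Nat.succ_pred_eq_of_pos (by omega)).symm⟩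
      rw [hz, Nat.add_sub_cancel]
      ring
    have hlt : (N + 2) ^ (2 * i + 2) < (N + 2) ^ (2 * j + 2) :=
      Nat.pow_lt_pow_right (by omega) (by omega)
    refine ⟨![(N + 2) ^ (i + 1), (N + 2) ^ (2 * j + 1 - i) - 1], ?_, ?_, ?_⟩
    · intro t
      have h1 := hB (2 * j + 1 - i) (by omega)
      have h2 := hB (i + 1) (by omega)
      fin_cases t
      · simp only [Fin.zero_eta, Matrix.cons_val_zero]; omega
      · simp only [Fin.mk_one, Matrix.cons_val_one, Matrix.cons_val_zero]; omega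
    · intro s t
      fin_cases s <;> fin_cases t <;> simp only [Fin.zero_eta, Fin.mk_one, e0, e1] <;>
        intro h <;> first | rfl | omega
    · intro s t
      fin_cases s <;> fin_cases t <;> simp only [Fin.zero_eta, Fin.mk_one, e0, e1, hc]
  · intro h
    obtain ⟨a, ha, hc⟩ := h 2
      (fun f => ⟨padicValNat 2 f.natTrailingDegree % 2, Nat.mod_lt _ (by norm_num)⟩)
    have h1 := hc 0 1
    have hx := ha 0
    have hy := ha 1
    have e0 : aeval a (pat 0) = a 0 * a 0 := by simp [pat, pow_two]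
    have e1 : aeval a (pat 1) = a 0 * (1 + a 1) := by simp [pat, mul_add]
    have hc1 : (1 + a 1).coeff 0 ≠ 0 := by simp
    have hne : (1 + a 1) ≠ 0 := fun h0 => hc1 (by rw [h0]; simp)
    have hz : (1 + a 1).natTrailingDegree = 0 :=
      Nat.le_zero.1 (Polynomial.natTrailingDegree_le_of_ne_zero hc1)
    have hpos : (a 0).natTrailingDegree ≠ 0 := by
      rw [Polynomial.natTrailingDegree_ne_zero]; exact hx
    rw [e0, e1] at h1
    simp only [Polynomial.natTrailingDegree_mul hx.1 hx.1, Polynomial.natTrailingDegree_mul hx.1 hne,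
      hz, add_zero, Fin.mk.injEq] at h1
    rw [← two_mul, padicValNat.mul (by norm_num) hpos, padicValNat.self (by norm_num)] at h1
    omega

end Pool.Agent.Results.MP_700e60_co.Counter
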